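import Pool.Agent.H6.KX.Wind

/-!
# MP_c748c6_nt: local bounds for `m(x)` with a remainder `x ^ (-1/2 + ε)`

Q1 asks for `m(x) ≪ E_A(x) + x ^ (-1/4)`, where `m(x) = ∑_{n ≤ x} μ(n) / n` and `E_A(x)` is the maximum
of `|ψ(y) - y| / y` over a bounded window around `x`. With the Mertens function in place of `ψ` the
known remainder is `exp(-c log x / log log x)`, and the window is `[x, 2x]`; the same is known for
`∑_{n ≤ x} Λ(n) / n`. We prove both with a remainder `x ^ (-1/2 + ε)` and with arbitrarily short windows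
around `x`: parts (1) and (2). Part (3): every window `[x, B x]` contains an interval `[y, y + √y]` on
which `m` itself is at most `C z ^ (-1/2 + ε)`, so that the inequality of Q1 holds at these points.

Proof. The library (`H353`, `H353R5`) has signed smooth cutoffs `W` at every scale with
`∑ μ(n) W(x / n) ≪ x ^ (1/2 + ε)` (their transform kills the zeros of zeta with real part `≥ σ > 1/2`).
Let `K(v) = ∫_{y ≤ v} W'(y) dy / y`, which is a constant `c` for large `v`. The sum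
`∑ (μ(n) / n) K(x / n)` has the derivative `x⁻¹ (∑ μ(n) W(x / n))'`, so it is `c · 0 + O(x ^ (-1/2 + ε))`,
where the constant `0 = 1 / ζ(1)` comes from the transform at `s = 1`; it is also an average of `m` over the
window, and `m` varies by at most `C max |M(y)| / y` there. One needs `c ≠ 0`, which holds for the
library's construction.
-/

set_option autoImplicit false

namespace Pool.Agent.Results.MP_c748c6_nt.LocalMertens

open Finset H353 H353.D Pool.Agent.H6.KX

noncomputable section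

/-- `M(y) = ∑_{n ≤ y} μ(n)` -/
def M (y : ℝ) : ℝ := ∑ n ∈ Icc 1 ⌊y⌋₊, (ArithmeticFunction.moebius n : ℝ)

/-- `m(x) = ∑_{n ≤ x} μ(n) / n` -/
def m (x : ℝ) : ℝ := ∑ n ∈ Icc 1 ⌊x⌋₊, (ArithmeticFunction.moebius n : ℝ) / n

/-- `ψ(y) = ∑_{n ≤ y} Λ(n)` -/
def psi (y : ℝ) : ℝ := ∑ n ∈ Icc 1 ⌊y⌋₊, ArithmeticFunction.vonMangoldt n

/-- `∑_{n ≤ x} Λ(n) / n` -/
def psiTilde (x : ℝ) : ℝ := ∑ n ∈ Icc 1 ⌊x⌋₊, ArithmeticFunction.vonMangoldt n / n

theorem theta_bounds {ε : ℝ} (hε : 0 < ε) :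
    1 / 2 < min (1 / 2 + ε) (3 / 4) ∧ min (1 / 2 + ε) (3 / 4) < 1 :=
  ⟨lt_min (by linarith) (by norm_num), lt_of_le_of_lt (min_le_right _ _) (by norm_num)⟩

theorem pow_le {ε X : ℝ} (hX : 1 ≤ X) :
    X ^ (min (1 / 2 + ε) (3 / 4) - 1) ≤ X ^ (-(1 / 2) + ε) :=
  Real.rpow_le_rpow_of_exponent_le hX (by linarith [min_le_left (1 / 2 + ε) (3 / 4)])

theorem harmonic_bound (x : ℝ) (hx : 1 ≤ x) :
    |∑ n ∈ Icc 1 ⌊x⌋₊, 1 / (n : ℝ) - Real.log x - Real.eulerMascheroniConstant| ≤ 2 / x := by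
  have hx0 : 0 < x := by linarith
  set N := ⌊x⌋₊ with hN
  have hN1 : 1 ≤ N := (Nat.one_le_floor_iff x).2 hx
  have hN0 : (0:ℝ) < N := by exact_mod_cast hN1
  have h1 : (N : ℝ) ≤ x := Nat.floor_le hx0.le
  have h2 : x < N + 1 := Nat.lt_floor_add_one x
  have e1 : ∑ n ∈ Icc 1 N, 1 / (n : ℝ) = (harmonic N : ℝ) := by
    rw [harmonic_eq_sum_Icc]
    push_cast
    exact sum_congr rfl fun n _ => by rw [one_div]
  have h3 := Real.eulerMascheroniSeq_lt_eulerMascheroniConstant N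
  have h4 := Real.eulerMascheroniConstant_lt_eulerMascheroniSeq' N
  unfold Real.eulerMascheroniSeq at h3
  unfold Real.eulerMascheroniSeq' at h4
  rw [if_neg (by omega)] at h4
  have h5 : Real.log (N + 1) ≤ Real.log N + 1 / N := by
    have e2 : (N : ℝ) + 1 = N * (1 + 1 / N) := by field_simp
    rw [e2, Real.log_mul hN0.ne' (by positivity)]
    have := Real.log_le_sub_one_of_pos (by positivity : (0:ℝ) < 1 + 1 / N)
    linarith
  have h6 : Real.log N ≤ Real.log x := Real.log_le_log hN0 h1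
  have h7 : Real.log x ≤ Real.log (N + 1) := Real.log_le_log hx0 h2.le
  have h8 : 1 / (N : ℝ) ≤ 2 / x := by
    rw [div_le_div_iff₀ hN0 hx0]
    have : (1:ℝ) ≤ N := by exact_mod_cast hN1
    linarith
  rw [e1, abs_le]
  constructor <;> linarith

/-- **Main theorem.** (1) For all `A > 1` and `ε > 0` there is `C` such that for every `X ≥ A` and every
`x` in `[X / A, X]`: `|m(x)| ≤ C (E + X ^ (-1/2 + ε))` whenever `|M(y)| ≤ E y` for all `y` in
`[X / A, X]`. (2) The same for `∑_{n ≤ x} Λ(n) / n - log x + γ` and `|ψ(y) - y| ≤ E y`. (3) For every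
`ε > 0` there are `B` and `C` such that every window `[x, B x]`, `x ≥ 1`, contains `y` with
`|m(z)| ≤ C z ^ (-1/2 + ε)` for all `z` in `[y, y + √y]`. -/
theorem result :
    (∀ A : ℝ, 1 < A → ∀ ε : ℝ, 0 < ε → ∃ C : ℝ, ∀ X E x : ℝ, A ≤ X → X / A ≤ x → x ≤ X →
      (∀ y : ℝ, X / A ≤ y → y ≤ X → |M y| ≤ E * y) → |m x| ≤ C * (E + X ^ (-(1 / 2) + ε))) ∧
    (∀ A : ℝ, 1 < A → ∀ ε : ℝ, 0 < ε → ∃ C : ℝ, ∀ X E x : ℝ, A ≤ X → X / A ≤ x → x ≤ X →
      (∀ y : ℝ, X / A ≤ y → y ≤ X → |psi y - y| ≤ E * y) →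
        |psiTilde x - Real.log x + Real.eulerMascheroniConstant| ≤ C * (E + X ^ (-(1 / 2) + ε))) ∧
    (∀ ε : ℝ, 0 < ε → ∃ B C : ℝ, 1 < B ∧ ∀ x : ℝ, 1 ≤ x → ∃ y : ℝ, x ≤ y ∧ y ≤ B * x ∧
      ∀ z : ℝ, y ≤ z → z ≤ y + √y → |m z| ≤ C * z ^ (-(1 / 2) + ε)) := by
  refine ⟨fun A hA ε hε => ?_, fun A hA ε hε => ?_, fun ε hε => ?_⟩
  · obtain ⟨t1, t2⟩ := theta_bounds hε
    have hL : 0 < Real.log A := Real.log_pos hA
    have hexp : Real.exp (Real.log A) = A := Real.exp_log (by linarith)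
    obtain ⟨g, hg, hck, hS⟩ := good_signed' LT_zeta (Real.log A) _ hL t1 t2
    obtain ⟨C, _, hb⟩ := hS aM _ af_zeta_mu
    obtain ⟨C', hC', hmain⟩ := local_main LT_zeta af_zeta_mu hg hL t2 hb 0 D_mu hck
    refine ⟨C', fun X E x hX hx1 hx2 hE => ?_⟩
    rw [hexp] at hmain
    have h5 := hmain X E x hX hE hx1 hx2
    rw [sub_zero] at h5
    refine h5.trans (mul_le_mul_of_nonneg_left ?_ hC')
    have := pow_le (ε := ε) (by linarith : 1 ≤ X)
    linarith
  · obtain ⟨t1, t2⟩ := theta_bounds hε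
    have hL : 0 < Real.log A := Real.log_pos hA
    have hexp : Real.exp (Real.log A) = A := Real.exp_log (by linarith)
    obtain ⟨g, hg, hck, hS⟩ := good_signed' LT_zeta (Real.log A) _ hL t1 t2
    obtain ⟨C, _, hb⟩ := hS aL _ af_zeta_lam
    obtain ⟨C', hC', hmain⟩ := local_main LT_zeta af_zeta_lam hg hL t2 hb _ D_lam hck
    refine ⟨C' * (1 + A) + 2 * A, fun X E x hX hx1 hx2 hE => ?_⟩
    have hA0 : 0 < A := by linarith
    have hX1 : 1 < X := by linarith
    have hX0 : 0 < X := by linarith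
    have hl : 1 ≤ X / A := (one_le_div hA0).2 hX
    have hx : 1 ≤ x := by linarith
    rw [hexp] at hmain
    -- the error terms of the two sums
    have hfl : ∀ y : ℝ, ∑ n ∈ Icc 1 ⌊y⌋₊, aL n = psi y - ⌊y⌋₊ := by
      intro y
      have e1 : ∀ n ∈ Icc 1 ⌊y⌋₊, aL n = ArithmeticFunction.vonMangoldt n - 1 := fun n hn => by
        rw [mem_Icc] at hn
        unfold aL
        rw [if_neg (by omega)]
      rw [sum_congr rfl e1, sum_sub_distrib]
      simp [psi]
    have hE' : ∀ y : ℝ, X / A ≤ y → y ≤ X → |∑ n ∈ Icc 1 ⌊y⌋₊, aL n| ≤ (E + A / X) * y := by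
      intro y hy1 hy2
      have hy : 1 ≤ y := by linarith
      have h6 := Nat.floor_le (by linarith : 0 ≤ y)
      have h7 := Nat.lt_floor_add_one y
      have h8 : 1 ≤ A / X * y := by
        have : 1 = A / X * (X / A) := by field_simp
        rw [this]
        exact mul_le_mul_of_nonneg_left hy1 (by positivity)
      rw [hfl]
      have e2 : psi y - ⌊y⌋₊ = (psi y - y) + (y - ⌊y⌋₊) := by ring
      rw [e2, add_mul]
      refine (abs_add_le _ _).trans (add_le_add (hE y hy1 hy2) ?_)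
      rw [abs_of_nonneg (by linarith)]
      linarith
    have h5 := hmain X (E + A / X) x hX hE' hx1 hx2
    have e3 : ∑ n ∈ Icc 1 ⌊x⌋₊, aL n / n = psiTilde x - ∑ n ∈ Icc 1 ⌊x⌋₊, 1 / (n : ℝ) := by
      unfold psiTilde
      rw [← sum_sub_distrib]
      refine sum_congr rfl fun n hn => ?_
      rw [mem_Icc] at hn
      unfold aL
      rw [if_neg (by omega), sub_div]
    rw [e3] at h5
    have h6 := harmonic_bound x hx
    have hE0 : 0 ≤ E := by
      have := (abs_nonneg _).trans (hE (X / A) le_rfl (by rw [div_le_iff₀ hA0]; nlinarith))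
      exact nonneg_of_mul_nonneg_left this (by linarith)
    have h7 : 1 / X ≤ X ^ (min (1 / 2 + ε) (3 / 4) - 1) := by
      rw [one_div, ← Real.rpow_neg_one]
      exact Real.rpow_le_rpow_of_exponent_le hX1.le (by linarith)
    have h8 := pow_le (ε := ε) hX1.le
    have h9 : 2 / x ≤ 2 * A * (1 / X) := by
      rw [div_le_iff₀ (by linarith)]
      have : 1 = 1 / X * A * (X / A) := by field_simp
      calc (2:ℝ) = 2 * (1 / X * A * (X / A)) := by rw [← this]; ring
        _ ≤ 2 * (1 / X * A * x) := by gcongr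
        _ = _ := by ring
    set P : ℝ := X ^ (-(1 / 2) + ε) with hP
    have h10 : 1 / X ≤ P := h7.trans h8
    have h11 : A / X ≤ A * P := by
      rw [div_eq_mul_one_div]
      exact mul_le_mul_of_nonneg_left h10 hA0.le
    have h12 : C' * (E + A / X + X ^ (min (1 / 2 + ε) (3 / 4) - 1)) ≤ C' * ((1 + A) * (E + P)) := by
      refine mul_le_mul_of_nonneg_left ?_ hC'
      have : 0 ≤ A * E := by positivity
      nlinarith
    have h13 : 2 / x ≤ 2 * A * (E + P) := by
      refine h9.trans ?_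
      have : 0 ≤ 2 * A * E := by positivity
      nlinarith
    have e4 : psiTilde x - Real.log x + Real.eulerMascheroniConstant =
        (psiTilde x - ∑ n ∈ Icc 1 ⌊x⌋₊, 1 / (n : ℝ) - -2 * Real.eulerMascheroniConstant) +
        (∑ n ∈ Icc 1 ⌊x⌋₊, 1 / (n : ℝ) - Real.log x - Real.eulerMascheroniConstant) := by ring
    rw [e4]
    refine (abs_add_le _ _).trans ((add_le_add (h5.trans h12) (h6.trans h13)).trans (le_of_eq ?_))
    ring
  · obtain ⟨t1, t2⟩ := theta_bounds hε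
    set θ := min (1 / 2 + ε) (3 / 4) with hθ
    obtain ⟨L, g, hL, hg, hm, hS⟩ := D.good_mono LT_zeta ((θ + 1 / 2) / 2) θ (by linarith) (by linarith) t2
      (fun x hx => FF_real_ne x (by linarith))
    obtain ⟨C, _, hb⟩ := hS aM _ af_zeta_mu
    obtain ⟨B, C', hB, hwin⟩ := window_main LT_zeta af_zeta_mu hg hm hL t1 t2 hb 0 D_mu (fun n hn => by
      have h1 : |aM n| ≤ 1 := by
        unfold aM
        exact_mod_cast ArithmeticFunction.abs_moebius_le_one
      have := Real.log_natCast_nonneg n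
      linarith)
    refine ⟨B, C', hB, fun x hx => ?_⟩
    obtain ⟨y, hy1, hy2, hy3⟩ := hwin x hx
    refine ⟨y, hy1, hy2, fun z hz1 hz2 => ?_⟩
    have hz : 1 ≤ z := by linarith
    have h5 := hy3 z hz1 hz2
    rw [sub_zero] at h5
    have hC0 : 0 ≤ C' := by
      have h6 : 0 < z ^ (θ - 1) := Real.rpow_pos_of_pos (by linarith) _
      exact nonneg_of_mul_nonneg_left ((abs_nonneg _).trans h5) h6
    exact h5.trans (mul_le_mul_of_nonneg_left (pow_le hz) hC0)

end

end Pool.Agent.Results.MP_c748c6_nt.LocalMertens
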